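import Pool.Agent.TotReal.Comp

/-!
# The theory of every ring of totally real algebraic integers is undecidable

Let `R` be a ring of totally real algebraic integers. For `N, b, e` in `R` put
`D(N,b,e) = {x : N - x² is a sum of four squares in R, and b + x divides e}`.
Every such set is bounded at every real place. If `N = n²`, `b > n + (2n)ⁿ` is a rational integer
and `e = ∏_{i ≤ n} (b + i)`, then `D(N,b,e) = {1, …, n}`: modulo `b + x` the number `e` is
`∏ (i - x)`, all of whose conjugates are at most `(2n)ⁿ` in absolute value, while all conjugates of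
`b + x` are larger. Hence a natural number is an element `t` such that for some `N, b, e` we have
`1 ∈ D(N,b,e)` and `x ∈ D(N,b,e)` implies `x = t + 1` or `x + 1 ∈ D(N,b,e)`. So the natural numbers
are definable by one formula in all these rings, and their theories are undecidable.
-/

open FirstOrder NumberField

namespace Pool.Agent.Results.MP_bd783f_lc.TotallyRealUndecidable

open Pool.Agent.TotReal

/-- the embedding of the ring of integers of a subfield of the algebraic closure -/
noncomputable def emb (K : IntermediateField ℚ (AlgebraicClosure ℚ)) :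
    𝓞 K →+* AlgebraicClosure ℚ :=
  (algebraMap K (AlgebraicClosure ℚ)).comp (algebraMap (𝓞 K) K)

theorem emb_injective (K : IntermediateField ℚ (AlgebraicClosure ℚ)) :
    Function.Injective (emb K) :=
  (algebraMap K (AlgebraicClosure ℚ)).injective.comp (RingOfIntegers.coe_injective)

theorem emb_isIntegral (K : IntermediateField ℚ (AlgebraicClosure ℚ)) (a : 𝓞 K) :
    IsIntegral ℤ (emb K a) := by
  have h : IsIntegral ℤ (algebraMap (𝓞 K) K a) := RingOfIntegers.isIntegral_coe a
  have h2 := h.map (algebraMap K (AlgebraicClosure ℚ)).toIntAlgHom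
  exact h2

theorem emb_real (K : IntermediateField ℚ (AlgebraicClosure ℚ))
    (hK : ∀ a ∈ K, IsTotallyReal a) (a : 𝓞 K) : IsTotallyReal (emb K a) :=
  hK _ (algebraMap (𝓞 K) K a).2

/-- (1) One formula `ν` of the language `{+, ·, 0, 1}` defines the set of natural numbers in the
ring of integers of every subfield of the field of totally real algebraic numbers. (2) For every
such field the first-order theory of its ring of integers is undecidable. (3) The same formula
defines the natural numbers in every ring that consists of totally real algebraic integers, and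
(4) the theory of every such ring is undecidable. -/
theorem result :
    ∃ ν : RL.Formula (Fin 1),
      (∀ K : IntermediateField ℚ (AlgebraicClosure ℚ), (∀ a ∈ K, IsTotallyReal a) →
        ∀ t : 𝓞 K, ν.Realize (fun _ => t) ↔ ∃ n : ℕ, t = n) ∧
      (∀ K : IntermediateField ℚ (AlgebraicClosure ℚ), (∀ a ∈ K, IsTotallyReal a) →
        UndecidableTheory (𝓞 K)) ∧
      (∀ R : Subring (AlgebraicClosure ℚ), (∀ a ∈ R, IsIntegral ℤ a ∧ IsTotallyReal a) →
        ∀ t : R, ν.Realize (fun _ => t) ↔ ∃ n : ℕ, t = n) ∧
      (∀ R : Subring (AlgebraicClosure ℚ), (∀ a ∈ R, IsIntegral ℤ a ∧ IsTotallyReal a) →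
        UndecidableTheory R) := by
  have hO : ∀ K : IntermediateField ℚ (AlgebraicClosure ℚ), (∀ a ∈ K, IsTotallyReal a) →
      ∀ t : 𝓞 K, nu.Realize (fun _ => t) ↔ ∃ n : ℕ, t = n := fun K hK t =>
    nu_defines_nat (emb K) (emb_injective K) (emb_isIntegral K) (emb_real K hK) t
  have hS : ∀ R : Subring (AlgebraicClosure ℚ), (∀ a ∈ R, IsIntegral ℤ a ∧ IsTotallyReal a) →
      ∀ t : R, nu.Realize (fun _ => t) ↔ ∃ n : ℕ, t = n := fun R hR t =>
    nu_defines_nat R.subtype Subtype.val_injective (fun a => (hR _ a.2).1)
      (fun a => (hR _ a.2).2) t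
  refine ⟨nu, hO, ?_, hS, ?_⟩
  · intro K hK
    exact undecidable_of_definable nu (hO K hK)
  · intro R hR
    have : CharZero R := ⟨fun a b h => Nat.cast_injective (R := AlgebraicClosure ℚ)
      (by simpa using congrArg R.subtype h)⟩
    exact undecidable_of_definable nu (hS R hR)

end Pool.Agent.Results.MP_bd783f_lc.TotallyRealUndecidable
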